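import Pool.Agent.Helper90.VS.Defs

/-!
# MP_539ca6_an, R3d and R3e: rotation invariance of `FF` and the null graph
-/

open MeasureTheory Set Filter Topology

namespace Pool.Agent.Helper67.VSRot

open Pool.Agent.Helper90.VS

theorem norm_eq_one_of_pow {m : ℕ} (hm : 1 ≤ m) {ζ : ℂ} (h : ζ ^ m = 1) : ‖ζ‖ = 1 := by
  have h1 : ‖ζ‖ ^ m = 1 := by rw [← norm_pow, h, norm_one]
  exact (pow_eq_one_iff_of_nonneg (norm_nonneg _) (by omega)).1 h1

/-- the potential of a set invariant under a rotation is invariant -/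
theorem pot_rot (D : Set ℂ) (ζ : ℂ) (hζ : ‖ζ‖ = 1) (hD : (fun y => ζ * y) ⁻¹' D = D) (x : ℂ) :
    pot D (ζ * x) = pot D x := by
  have hmem : ζ ∈ Submonoid.unitSphere ℂ := by
    simp [Submonoid.unitSphere, hζ]
  let c : Circle := ⟨ζ, hmem⟩
  have hc : ∀ y, rotation c y = ζ * y := fun y => by
    rw [rotation_apply]
  have hmp : MeasurePreserving (rotation c) := (rotation c).measurePreserving
  have hemb : MeasurableEmbedding (rotation c) := (rotation c).toHomeomorph.measurableEmbedding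
  have h := hmp.setIntegral_preimage_emb hemb (fun y => Real.log ‖ζ * x - y‖) D
  have hpre : (rotation c) ⁻¹' D = D := by
    rw [← hD]
    ext y
    simp only [mem_preimage, hc]
    have := Set.ext_iff.1 hD
    simp only [mem_preimage] at this
    rw [this]
  unfold pot
  rw [← h, hpre]
  congr 1
  refine integral_congr_ae (Filter.Eventually.of_forall fun y => ?_)
  simp only [hc]
  rw [← mul_sub, norm_mul, hζ, one_mul]

theorem Aset_rot (m : ℕ) (a : ℝ → ℝ) (ζ : ℂ) (hζ1 : ‖ζ‖ = 1) (hζ : ζ ^ m = 1) :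
    (fun y => ζ * y) ⁻¹' (Aset m a) = Aset m a := by
  ext y
  simp only [Aset, mem_preimage, mem_ofPred_eq, norm_mul, hζ1, one_mul, mul_pow, hζ]

theorem D0_rot (m : ℕ) (a : ℝ → ℝ) (ζ : ℂ) (hζ1 : ‖ζ‖ = 1) (hζ : ζ ^ m = 1) :
    (fun y => ζ * y) ⁻¹' (D0 m a) = D0 m a := by
  unfold D0
  rw [preimage_sdiff, Aset_rot m a ζ hζ1 hζ]
  congr 1
  ext y
  simp [hζ1]

theorem FF_rot (m : ℕ) (a : ℝ → ℝ) (ζ : ℂ) (hζ1 : ‖ζ‖ = 1) (hζ : ζ ^ m = 1) (x : ℂ) :
    FF m a (ζ * x) = FF m a x := by
  unfold FF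
  rw [pot_rot _ ζ hζ1 (D0_rot m a ζ hζ1 hζ), norm_mul, hζ1, one_mul]

theorem pt_pow (m : ℕ) (hm : 1 ≤ m) (X t : ℝ) :
    (pt m X t) ^ m = Complex.exp (-(t : ℂ) + X * Complex.I) := by
  unfold pt
  rw [← Complex.exp_nat_mul]
  congr 1
  have : (m : ℂ) ≠ 0 := by
    exact_mod_cast (show m ≠ 0 by omega)
  field_simp

/-- R3d: general form of the identity, by rotation invariance (uses R3c `FF_pt`, given here as a
hypothesis). -/
theorem FF_eq_of (m : ℕ) (hm : 1 ≤ m) (a : ℝ → ℝ)
    (hpt : ∀ X t : ℝ, |X| ≤ Real.pi → t ∈ Icc (0:ℝ) 10 →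
      (m:ℝ) ^ 2 * FF m a (pt m X t) = Phi m a |X| t) (x : ℂ)
    (h1 : Real.exp (-10) ≤ ‖x‖ ^ m) (h2 : ‖x‖ ≤ 1) :
    (m:ℝ) ^ 2 * FF m a x = Phi m a |Complex.arg (x ^ m)| (-(m * Real.log ‖x‖)) := by
  have hm' : (0:ℝ) < m := by exact_mod_cast (show 0 < m by omega)
  have hx : x ≠ 0 := by
    rintro rfl
    rw [norm_zero, zero_pow (by omega)] at h1
    exact absurd h1 (not_le.2 (Real.exp_pos _))
  have hn : 0 < ‖x‖ := norm_pos_iff.2 hx
  set X := Complex.arg (x ^ m) with hX
  set t := -(m * Real.log ‖x‖) with ht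
  have hlog : Real.log ‖x‖ ≤ 0 := Real.log_nonpos hn.le h2
  have ht0 : 0 ≤ t := by rw [ht]; nlinarith
  have ht10 : t ≤ 10 := by
    have h3 := Real.log_le_log (Real.exp_pos _) h1
    rw [Real.log_exp, Real.log_pow] at h3
    rw [ht]; linarith
  have hpow : (pt m X t) ^ m = x ^ m := by
    rw [pt_pow m hm, Complex.exp_add]
    have e1 : Complex.exp (-(t:ℂ)) = ((‖x ^ m‖ : ℝ) : ℂ) := by
      rw [← Complex.ofReal_neg, ← Complex.ofReal_exp, ht, neg_neg]
      congr 1
      rw [← Real.log_pow, Real.exp_log (by positivity), norm_pow]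
    rw [e1, hX]
    exact Complex.norm_mul_exp_arg_mul_I _
  have hpt0 : pt m X t ≠ 0 := Complex.exp_ne_zero _
  have hζ : (x / pt m X t) ^ m = 1 := by
    rw [div_pow, hpow, div_self (pow_ne_zero _ hx)]
  have hζ1 := norm_eq_one_of_pow hm hζ
  have hxe : x = (x / pt m X t) * pt m X t := by field_simp
  rw [hxe, FF_rot m a _ hζ1 hζ]
  exact hpt X t (Complex.abs_arg_le_pi _) ⟨ht0, ht10⟩

theorem cos_abs_arg_polar (m : ℕ) (r φ : ℝ) (hr : 0 < r) :
    Real.cos |Complex.arg (((r:ℂ) * (Real.cos φ + Real.sin φ * Complex.I)) ^ m)|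
      = Real.cos (m * φ) := by
  rw [Real.cos_abs]
  have e : ((r:ℂ) * (Real.cos φ + Real.sin φ * Complex.I)) ^ m
      = ((r ^ m : ℝ) : ℂ) * (Real.cos (m * φ) + Real.sin (m * φ) * Complex.I) := by
    rw [mul_pow]
    push_cast
    rw [← Complex.cos_add_sin_mul_I_pow]
  have hrm : (0:ℝ) < r ^ m := by positivity
  have hne : ((r ^ m : ℝ) : ℂ) * (Real.cos (m * φ) + Real.sin (m * φ) * Complex.I) ≠ 0 := by
    rw [← e]
    have h1 : (Real.cos φ + Real.sin φ * Complex.I : ℂ) ≠ 0 := by
      push_cast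
      rw [← Complex.exp_mul_I]
      exact Complex.exp_ne_zero _
    exact pow_ne_zero _ (mul_ne_zero (by exact_mod_cast hr.ne') h1)
  rw [e, Complex.cos_arg hne]
  have hn : ‖((r ^ m : ℝ) : ℂ) * (Real.cos (m * φ) + Real.sin (m * φ) * Complex.I)‖ = r ^ m := by
    rw [norm_mul, Complex.norm_real, Real.norm_eq_abs, abs_of_pos hrm]
    have : ‖(Real.cos (m * φ) + Real.sin (m * φ) * Complex.I : ℂ)‖ = 1 := by
      push_cast
      rw [← Complex.exp_mul_I]
      have := Complex.norm_exp_ofReal_mul_I (m * φ)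
      push_cast at this
      exact this
    rw [this, mul_one]
  rw [hn, Complex.re_ofReal_mul]
  simp only [Complex.add_re, Complex.ofReal_re, Complex.mul_re,
    Complex.I_re, mul_zero, Complex.ofReal_im, Complex.I_im, mul_one, sub_self, add_zero]
  field_simp

/-- R3e: the graph is a null set -/
theorem null_graph (m : ℕ) (hm : 1 ≤ m) (a : ℝ → ℝ) (ha : Prof a) :
    volume {x : ℂ | |Complex.arg (x ^ m)| = a (-(m * Real.log ‖x‖))} = 0 := by
  set S : Set ℂ := {x : ℂ | |Complex.arg (x ^ m)| = a (-(m * Real.log ‖x‖))} with hS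
  have hmeas : MeasurableSet S := by
    have h1 : Measurable (fun x : ℂ => |Complex.arg (x ^ m)|) := by fun_prop
    have h2 : Measurable (fun x : ℂ => a (-(m * Real.log ‖x‖))) :=
      ha.mono.measurable.comp (by fun_prop)
    exact measurableSet_eq_fun h1 h2
  have hm' : (m:ℝ) ≠ 0 := by exact_mod_cast (show m ≠ 0 by omega)
  have hcount : ∀ c : ℝ, {φ : ℝ | Real.cos (m * φ) = Real.cos c}.Countable := by
    intro c
    have : {φ : ℝ | Real.cos (m * φ) = Real.cos c} ⊆
        (Set.range fun k : ℤ => (c - 2 * k * Real.pi) / m) ∪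
        (Set.range fun k : ℤ => (2 * k * Real.pi - c) / m) := by
      intro φ hφ
      obtain ⟨k, hk | hk⟩ := Real.cos_eq_cos_iff.1 hφ
      · left
        exact ⟨k, by simp only; rw [hk]; field_simp; ring⟩
      · right
        exact ⟨k, by simp only; rw [hk]; field_simp; ring⟩
    exact ((Set.countable_range _).union (Set.countable_range _)).mono this
  rw [← lintegral_indicator_one hmeas, ← Complex.lintegral_comp_polarCoord_symm]
  have hm1 : Measurable (fun p : ℝ × ℝ => Complex.polarCoord.symm p) := by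
    simp only [Complex.polarCoord_symm_apply]
    fun_prop
  have hae : ∀ᵐ p : ℝ × ℝ ∂(volume.restrict polarCoord.target),
      ENNReal.ofReal p.1 • (S.indicator (1 : ℂ → ENNReal)) (Complex.polarCoord.symm p) = 0 := by
    rw [ae_restrict_iff' polarCoord.open_target.measurableSet]
    have hset : MeasurableSet {p : ℝ × ℝ | ¬ (p ∈ polarCoord.target →
        ENNReal.ofReal p.1 • (S.indicator (1 : ℂ → ENNReal)) (Complex.polarCoord.symm p) = 0)} := by
      have h3 : Measurable (fun p : ℝ × ℝ =>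
          ENNReal.ofReal p.1 • (S.indicator (1 : ℂ → ENNReal)) (Complex.polarCoord.symm p)) := by
        have h4 : Measurable (fun p : ℝ × ℝ => (S.indicator (1 : ℂ → ENNReal))
            (Complex.polarCoord.symm p)) :=
          (measurable_one.indicator hmeas).comp hm1
        exact (ENNReal.measurable_ofReal.comp measurable_fst).mul h4
      have : {p : ℝ × ℝ | ¬ (p ∈ polarCoord.target →
        ENNReal.ofReal p.1 • (S.indicator (1 : ℂ → ENNReal)) (Complex.polarCoord.symm p) = 0)}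
        = polarCoord.target ∩ {p : ℝ × ℝ |
          ENNReal.ofReal p.1 • (S.indicator (1 : ℂ → ENNReal)) (Complex.polarCoord.symm p) = 0}ᶜ := by
        ext p; simp [and_assoc]
      rw [this]
      exact polarCoord.open_target.measurableSet.inter
        ((measurableSet_eq_fun h3 measurable_const).compl)
    rw [ae_iff, Measure.volume_eq_prod, Measure.measure_prod_null hset]
    refine Filter.Eventually.of_forall fun r => ?_
    refine (Set.Countable.measure_zero ((hcount (a (-(m * Real.log r)))).mono ?_) _)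
    intro φ hφ
    simp only [mem_preimage, mem_ofPred_eq, Classical.not_imp] at hφ
    obtain ⟨h1, h2⟩ := hφ
    have hr : 0 < r := by
      have := h1; simp only [polarCoord_target, mem_prod, mem_Ioi] at this; exact this.1
    have hmem : Complex.polarCoord.symm (r, φ) ∈ S := by
      by_contra hcon
      apply h2
      rw [indicator_of_notMem hcon, smul_zero]
    rw [Complex.polarCoord_symm_apply] at hmem
    simp only [hS, mem_ofPred_eq] at hmem ⊢
    rw [← cos_abs_arg_polar m r φ hr, hmem]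
    have hnorm : ‖(r:ℂ) * (Real.cos φ + Real.sin φ * Complex.I)‖ = r := by
      have := Complex.norm_polarCoord_symm (r, φ)
      rw [Complex.polarCoord_symm_apply, abs_of_pos hr] at this
      exact this
    rw [hnorm]
  rw [lintegral_congr_ae hae]
  simp

end Pool.Agent.Helper67.VSRot
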